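import Pool.Agent.Q161.OD.Stm

set_option autoImplicit false

/-! Project OD (helper161), job CORE2: the main upper bound (adapted from `Q91.EL.core`). -/

namespace Pool.Agent.Q26.OD

open NumberField IsDedekindDomain Finset Pool.Agent.Q51.EL Pool.Agent.Q161.OD

lemma rho_nonneg (L : Type) [Field L] [NumberField L] (l : ℕ) : 0 ≤ rho L l := by
  unfold rho
  split_ifs
  · positivity
  · exact zero_le_one

lemma two_mul_le {n : ℕ} (hn : 5 ≤ n) : ((n : ℝ) + 1) * 2 / 2 ^ n ≤ 3 / 8 := by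
  rw [div_le_iff₀ (by positivity)]
  induction n, hn using Nat.le_induction with
  | base => norm_num
  | succ n hn ih =>
    rw [pow_succ]
    push_cast
    have : (1:ℝ) ≤ 2 ^ n := one_le_pow₀ (by norm_num)
    have h5 : (5:ℝ) ≤ n := by exact_mod_cast hn
    nlinarith

/-- the bounds for `rho` -/
lemma rho_le (L : Type) [Field L] [NumberField L] (hn : 5 ≤ Module.finrank ℚ L) (l : ℕ) :
    rho L l ≤ 1 - 5 / 8 * (if N1 L l = Module.finrank ℚ L then 1 else 0) := by
  unfold rho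
  by_cases h2 : N1 L l = Module.finrank ℚ L
  · rw [if_pos h2, if_pos h2]
    have := two_mul_le hn
    linarith
  · rw [if_neg h2, if_neg h2]; norm_num

open Classical in
theorem core2 (h1 : S_SIEVE2) (h2 : Pool.Agent.Q51.EL.S_SUMS) (h3 : S_CNT2) (h4 : Pool.Agent.Q51.EL.S_RAM)
    (h5 : Pool.Agent.Q51.EL.S_M1) (h6 : Pool.Agent.Q51.EL.S_M2) : S_CORE2 := by
  intro L _ _ hn B hB
  obtain ⟨n, hndef⟩ : ∃ n, n = Module.finrank ℚ L := ⟨_, rfl⟩
  obtain ⟨Cs, hCs, hsieve⟩ := h1 L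
  obtain ⟨⟨B0, hB0, hram⟩, hN1le⟩ := h4 L
  have hrhole := rho_le L hn
  have hcnt := h3 L
  have hsplit0 := h6 L
  rw [← hndef] at hn hsieve hN1le hrhole hcnt hsplit0
  rw [← hndef]
  have hn0 : (0:ℝ) < (n:ℝ) + 1 := by positivity
  have hn5 : (5:ℝ) ≤ n := by exact_mod_cast hn
  obtain ⟨c2, hc2, hsums⟩ := h2 ((n:ℝ) + 1) hn0
  obtain ⟨c6, C6, hc6, hsplit⟩ := hsplit0
  obtain ⟨C5, hmert⟩ := h5 L (c6 / 8) (by positivity)
  have hsumm : Summable (fun n : ℕ => 1 / (n : ℝ) ^ 2) :=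
    Real.summable_one_div_nat_pow.2 (by norm_num)
  obtain ⟨K2, hK2⟩ : ∃ K2 : ℝ, K2 = ∑' n : ℕ, 1 / (n : ℝ) ^ 2 := ⟨_, rfl⟩
  obtain ⟨B', hB'⟩ : ∃ B' : ℕ, B' = B * B0 := ⟨_, rfl⟩
  have hB'0 : B' ≠ 0 := by rw [hB']; exact mul_ne_zero hB hB0
  obtain ⟨c, hc⟩ : ∃ c : ℝ, c = c6 / 2 := ⟨_, rfl⟩
  have hc0 : 0 < c := by rw [hc]; positivity
  -- the constant
  obtain ⟨R, hR⟩ : ∃ R : ℝ, R = (1 + c) * Real.log 2 + C5 + 5 / 8 * C6 +
    ((n:ℝ) + 1) * (((n:ℝ) + 1) ^ 2 + B' + 1) + ((n:ℝ) + 1) ^ 2 * K2 := ⟨_, rfl⟩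
  have hlog9 : 0 < Real.log 9 := Real.log_pos (by norm_num)
  have hconst0 : 0 ≤ Cs / c2 * Real.exp R := by positivity
  have hconst1 : 0 < Cs * Real.log 9 ^ (1 + c) := by positivity
  refine ⟨c, Cs / c2 * Real.exp R + Cs * Real.log 9 ^ (1 + c), hc0, by linarith, ?_⟩
  intro T hT Y0 M0 hY0 hM0
  obtain ⟨Y, hYdef⟩ : ∃ Y : ℝ, Y = min Y0 M0 := ⟨_, rfl⟩
  have hY : 3 ≤ Y := by rw [hYdef]; exact le_min hY0 hM0
  rw [← hYdef]
  have hY0' : 0 < Y := by linarith
  have hlogY1 : 1 ≤ Real.log Y := by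
    rw [Real.le_log_iff_exp_le hY0']
    have := Real.exp_one_lt_d9; linarith
  have hlogY : 0 < Real.log Y := by linarith
  have hYM : 0 < Y0 ^ n * M0 := mul_pos (pow_pos (by linarith) _) (by linarith)
  obtain ⟨M, hM⟩ : ∃ M : ℝ, M = (({p ∈ T | (∀ σ : L →+* ℂ, ‖σ (p.1 : L)‖ ≤ Y0) ∧
    |(p.2 : ℝ)| ≤ M0}.ncard : ℕ) : ℝ) := ⟨_, rfl⟩
  have hMnn : 0 ≤ M := by rw [hM]; exact Nat.cast_nonneg _
  have htriv := hsieve Y0 M0 ∅ T (fun _ => 1) (by linarith) (by linarith) (by simp) (by simp)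
  refine ⟨htriv.1, ?_⟩
  rw [← hM]
  have hlp : 0 < Real.log Y ^ (-(1 + c)) := Real.rpow_pos_of_pos hlogY _
  rcases lt_or_ge Y 9 with hY9 | hY9
  · -- small Y
    have h7 : M ≤ Cs * Y0 ^ n * M0 := by
      have := htriv.2
      rw [Finset.powerset_empty] at this
      have h8 : ({∅} : Finset (Finset ℕ)).filter
          (fun D => (((∏ t ∈ D, t : ℕ) : ℝ)) ^ 2 ≤ min Y0 M0) = {∅} := by
        rw [Finset.filter_eq_self]
        intro D hD
        rw [mem_singleton] at hD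
        subst hD
        rw [← hYdef]
        simp; linarith
      rw [h8, ← hM] at this
      simpa using this
    have h8 : 1 ≤ Real.log 9 ^ (1 + c) * Real.log Y ^ (-(1 + c)) := by
      rw [Real.rpow_neg hlogY.le, ← div_eq_mul_inv, one_le_div (by positivity)]
      exact Real.rpow_le_rpow hlogY.le (Real.log_le_log hY0' hY9.le) (by linarith)
    calc M ≤ Cs * Y0 ^ n * M0 := h7
      _ ≤ Cs * Y0 ^ n * M0 * (Real.log 9 ^ (1 + c) * Real.log Y ^ (-(1 + c))) := by
          refine le_mul_of_one_le_right ?_ h8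
          rw [mul_assoc]
          positivity
      _ = Cs * Real.log 9 ^ (1 + c) * (Y0 ^ n * M0) * Real.log Y ^ (-(1 + c)) := by
          ring
      _ ≤ (Cs / c2 * Real.exp R + Cs * Real.log 9 ^ (1 + c)) * (Y0 ^ n * M0) *
            Real.log Y ^ (-(1 + c)) := by
          refine mul_le_mul_of_nonneg_right (mul_le_mul_of_nonneg_right ?_ hYM.le) hlp.le
          linarith
      _ = _ := by ring
  · -- large Y
    obtain ⟨W, hW⟩ : ∃ W : ℝ, W = √Y := ⟨_, rfl⟩
    have hW3 : 3 ≤ W := by rw [hW]; apply Real.le_sqrt_of_sq_le; linarith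
    have hWsq : W ^ 2 = Y := by rw [hW]; exact Real.sq_sqrt hY0'.le
    have hW0 : 0 < W := by linarith
    obtain ⟨Q, hQ⟩ : ∃ Q : ℕ, Q = ⌊W⌋₊ := ⟨_, rfl⟩
    have hQ1 : 1 ≤ Q := by rw [hQ]; exact Nat.le_floor (by push_cast; linarith)
    obtain ⟨P, hP⟩ : ∃ P : Finset ℕ, P = (pr W).filter
      (fun l => (n + 1) ^ 2 < l ∧ ¬ l ∣ B' ∧ l ≠ 2 ∧ 1 ≤ N1 L l) := ⟨_, rfl⟩
    obtain ⟨η, hη⟩ : ∃ η : ℕ → ℝ, η = fun l =>
      (N1 L l + 1 - rho L l) / l - ((n:ℝ) + 1) ^ 2 / (l:ℝ) ^ 2 := ⟨_, rfl⟩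
    have hprW : ∀ l ∈ pr W, l.Prime ∧ l ≤ Q := by
      intro l hl
      unfold pr at hl
      rw [mem_filter, mem_Icc] at hl
      exact ⟨hl.2, by rw [hQ]; exact hl.1.2⟩
    have hPsub : P ⊆ pr W := by rw [hP]; exact Finset.filter_subset _ _
    have hPpr : ∀ l ∈ P, l.Prime := fun l hl => (hprW l (hPsub hl)).1
    have hPQ : ∀ l ∈ P, l ≤ Q := fun l hl => (hprW l (hPsub hl)).2
    have hηprop : ∀ l ∈ P, 0 < η l ∧ η l ≤ ((n:ℝ) + 1) / l := by
      intro l hl
      have hl0 : (0:ℝ) < l := by exact_mod_cast (hPpr l hl).pos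
      have hlpr := hPpr l hl
      rw [hP, mem_filter] at hl
      obtain ⟨-, hl1, hl2, hl3, hl4⟩ := hl
      have hl1' : ((n:ℝ) + 1) ^ 2 < l := by exact_mod_cast hl1
      have hN : (1:ℝ) ≤ N1 L l := by exact_mod_cast hl4
      have hNn : (N1 L l : ℝ) ≤ n := by exact_mod_cast hN1le l hlpr
      have ht := hrhole l
      have ht0 := rho_nonneg L l
      have hone : (1:ℝ) ≤ N1 L l + 1 - rho L l := by
        split_ifs at ht <;> linarith
      constructor
      · simp only [hη]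
        have h10 : ((n:ℝ) + 1) ^ 2 / (l:ℝ) ^ 2 < 1 / l := by
          rw [div_lt_div_iff₀ (by positivity) hl0]; nlinarith
        have h11 : 1 / (l:ℝ) ≤ (N1 L l + 1 - rho L l) / l := by gcongr
        linarith
      · simp only [hη]
        have h10 : 0 ≤ ((n:ℝ) + 1) ^ 2 / (l:ℝ) ^ 2 := by positivity
        have h11 : (N1 L l + 1 - rho L l) / l ≤ ((n:ℝ) + 1) / l := by
          apply div_le_div_of_nonneg_right _ hl0.le; linarith
        linarith
    have hs := hsieve Y0 M0 P T η (by linarith) (by linarith) hPpr (fun l hl => ⟨(hηprop l hl).1, by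
      have hl' := hl
      rw [hP, mem_filter] at hl'
      obtain ⟨-, hl1, hl2, hl3, hl4⟩ := hl'
      have hlB : ¬ l ∣ B := fun h => hl2 (by rw [hB']; exact h.mul_right _)
      have hlB0 : ¬ l ∣ B0 := fun h => hl2 (by rw [hB']; exact h.mul_left _)
      obtain ⟨t1, t2⟩ := hT l (hPpr l hl) hlB
      have h12 := hcnt l (hPpr l hl) hl3 (hram l (hPpr l hl) hlB0) T t1 t2
      refine h12.trans (le_of_eq ?_)
      simp only [hη]; ring⟩)
    have hss := hsums Q P η hQ1 hPpr hPQ (fun l hl => ⟨(hηprop l hl).1.le, (hηprop l hl).2⟩)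
    have hfilter : P.powerset.filter (fun D => ∏ t ∈ D, t ≤ Q) =
        P.powerset.filter (fun D => (((∏ t ∈ D, t : ℕ) : ℝ)) ^ 2 ≤ min Y0 M0) := by
      refine Finset.filter_congr fun D _ => ?_
      rw [hQ, Nat.le_floor_iff hW0.le, ← hYdef]
      constructor
      · intro h
        rw [← hWsq]
        exact pow_le_pow_left₀ (Nat.cast_nonneg _) h 2
      · intro h
        rw [← hWsq] at h
        exact le_of_sq_le_sq h hW0.le
    rw [hfilter] at hss
    -- lower bound of the sum of η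
    have hlow : (1 + c) * Real.log (Real.log Y) - R ≤ ∑ l ∈ P, η l := by
      -- from P to pr W
      have e1 : ∑ l ∈ P, η l = ∑ l ∈ P, (N1 L l + 1 - rho L l) / (l:ℝ) -
          ∑ l ∈ P, ((n:ℝ) + 1) ^ 2 / (l:ℝ) ^ 2 := by
        rw [← Finset.sum_sub_distrib, hη]
      have e2 : ∑ l ∈ P, ((n:ℝ) + 1) ^ 2 / (l:ℝ) ^ 2 ≤ ((n:ℝ) + 1) ^ 2 * K2 := by
        have : ∑ l ∈ P, ((n:ℝ) + 1) ^ 2 / (l:ℝ) ^ 2 = ((n:ℝ) + 1) ^ 2 * ∑ l ∈ P, 1 / (l:ℝ) ^ 2 := by
          rw [Finset.mul_sum]; exact Finset.sum_congr rfl fun l _ => by ring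
        rw [this, hK2]
        exact mul_le_mul_of_nonneg_left (hsumm.sum_le_tsum _ fun n _ => by positivity)
          (by positivity)
      have e3 : ∑ l ∈ pr W, (N1 L l + 1 - rho L l) / (l:ℝ) ≤
          ∑ l ∈ P, (N1 L l + 1 - rho L l) / (l:ℝ) + ((n:ℝ) + 1) * (((n:ℝ) + 1) ^ 2 + B' + 1) := by
        rw [← Finset.sum_sdiff hPsub, add_comm]
        refine add_le_add le_rfl ?_
        have e4 : ∀ l ∈ pr W \ P, (N1 L l + 1 - rho L l) / (l:ℝ) ≤
            if l ∈ Icc 1 ((n + 1) ^ 2) ∪ Icc 1 B' ∪ {2} then ((n:ℝ) + 1) / 2 else 0 := by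
          intro l hl
          rw [mem_sdiff] at hl
          obtain ⟨hl1, hl2⟩ := hl
          obtain ⟨hlp, -⟩ := hprW l hl1
          have hl0 : (0:ℝ) < l := by exact_mod_cast hlp.pos
          have hl2' : (2:ℝ) ≤ l := by exact_mod_cast hlp.two_le
          have hNn : (N1 L l : ℝ) ≤ n := by exact_mod_cast hN1le l hlp
          have ht0 := rho_nonneg L l
          have hgen : (N1 L l + 1 - rho L l) / (l:ℝ) ≤ ((n:ℝ) + 1) / 2 := by
            rw [div_le_div_iff₀ hl0 (by norm_num)]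
            nlinarith
          split_ifs with hmem
          · exact hgen
          · simp only [mem_union, mem_Icc, mem_singleton, not_or, not_and, not_le] at hmem
            obtain ⟨⟨m1, m2⟩, m3⟩ := hmem
            have m1' := m1 hlp.one_lt.le
            have m2' := m2 hlp.one_lt.le
            have hdiv : ¬ l ∣ B' := fun h =>
              absurd (Nat.le_of_dvd (Nat.pos_of_ne_zero hB'0) h) (not_le.2 m2')
            have hN2 : N1 L l < 1 := by
              by_contra hcon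
              exact hl2 (by rw [hP]; exact mem_filter.2 ⟨hl1, m1', hdiv, m3, not_lt.1 hcon⟩)
            have hz : (N1 L l : ℝ) + 1 - rho L l = 0 := by
              have h : N1 L l = 0 := by omega
              unfold rho
              rw [← hndef, if_neg (by omega), h]; simp
            rw [hz, zero_div]
        refine (Finset.sum_le_sum e4).trans ?_
        rw [← Finset.sum_filter]
        rw [Finset.sum_const, nsmul_eq_mul]
        have hcard : ((pr W \ P).filter (fun l => l ∈ Icc 1 ((n + 1) ^ 2) ∪ Icc 1 B' ∪ {2})).card ≤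
            (n + 1) ^ 2 + B' + 1 := by
          refine (Finset.card_le_card (t := Icc 1 ((n + 1) ^ 2) ∪ Icc 1 B' ∪ {2})
            fun l hl => (mem_filter.1 hl).2).trans ?_
          refine (Finset.card_union_le _ _).trans ?_
          have := Finset.card_union_le (Icc 1 ((n + 1) ^ 2)) (Icc 1 B')
          simp only [Nat.card_Icc, Finset.card_singleton] at this ⊢
          omega
        have hcard' : (((pr W \ P).filter
            (fun l => l ∈ Icc 1 ((n + 1) ^ 2) ∪ Icc 1 B' ∪ {2})).card : ℝ) ≤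
              ((n:ℝ) + 1) ^ 2 + B' + 1 := by
          exact_mod_cast hcard
        have hpos : (0:ℝ) ≤ ((n:ℝ) + 1) ^ 2 + B' + 1 := by positivity
        nlinarith
      -- rho
      have e5 : ∑ l ∈ pr W, (N1 L l : ℝ) / l + 5 / 8 * ∑ l ∈ (pr W).filter (fun l => N1 L l = n),
          (1:ℝ) / l ≤ ∑ l ∈ pr W, (N1 L l + 1 - rho L l) / (l:ℝ) := by
        rw [Finset.sum_filter, Finset.mul_sum, ← Finset.sum_add_distrib]
        refine Finset.sum_le_sum fun l hl => ?_
        have hl0 : (0:ℝ) < l := by exact_mod_cast (hprW l hl).1.pos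
        have ht := hrhole l
        have e6 : (N1 L l : ℝ) / l + 5 / 8 * (if N1 L l = n then (1:ℝ) / l else 0) =
            (N1 L l + 5 / 8 * (if N1 L l = n then (1:ℝ) else 0)) / l := by
          split_ifs <;> ring
        rw [e6]
        apply div_le_div_of_nonneg_right _ hl0.le
        linarith
      have e7 := hmert W hW3
      have e8 := hsplit W hW3
      have e10 : Real.log (Real.log W) = Real.log (Real.log Y) - Real.log 2 := by
        have : Real.log W = Real.log Y / 2 := by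
          rw [hW, Real.log_sqrt hY0'.le]
        rw [this, Real.log_div hlogY.ne' (by norm_num)]
      rw [e10] at e7 e8
      have e11 : (1 + c) * (Real.log (Real.log Y) - Real.log 2) =
          (1 - c6 / 8) * (Real.log (Real.log Y) - Real.log 2) +
          5 / 8 * (c6 * (Real.log (Real.log Y) - Real.log 2)) := by rw [hc]; ring
      rw [e1, hR]
      have e12 : (1 + c) * Real.log (Real.log Y) = (1 + c) * (Real.log (Real.log Y) - Real.log 2) +
        (1 + c) * Real.log 2 := by ring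
      rw [e12, e11]
      linarith
    -- conclusion
    have hexp : Real.exp (∑ l ∈ P, η l) * c2 * M ≤ Cs * Y0 ^ n * M0 := by
      refine le_trans ?_ hs.2
      rw [← hM, mul_comm M]
      refine mul_le_mul_of_nonneg_right ?_ hMnn
      rw [mul_comm]; exact hss
    have hexp2 : Real.exp ((1 + c) * Real.log (Real.log Y) - R) ≤
      Real.exp (∑ l ∈ P, η l) := Real.exp_le_exp.2 hlow
    have hrp : Real.log Y ^ (-(1 + c)) = Real.exp (-((1 + c) * Real.log (Real.log Y))) := by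
      rw [Real.rpow_def_of_pos hlogY]; congr 1; ring
    have h13 : Real.exp ((1 + c) * Real.log (Real.log Y) - R) * c2 * M ≤ Cs * Y0 ^ n * M0 :=
      (mul_le_mul_of_nonneg_right (mul_le_mul_of_nonneg_right hexp2 hc2.le) hMnn).trans hexp
    have h14 : M ≤ Cs / c2 * Real.exp R * (Y0 ^ n * M0) * Real.log Y ^ (-(1 + c)) := by
      rw [hrp]
      generalize (1 + c) * Real.log (Real.log Y) = X1 at h13 ⊢
      have h15 : Cs / c2 * Real.exp R * (Y0 ^ n * M0) * Real.exp (-X1) =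
          (Cs * Y0 ^ n * M0) / (Real.exp (X1 - R) * c2) := by
        rw [Real.exp_sub, Real.exp_neg]
        field_simp
      rw [h15, le_div_iff₀ (by positivity)]
      linarith
    refine h14.trans ?_
    rw [mul_assoc (_ + _) (Y0 ^ n) M0]
    refine mul_le_mul_of_nonneg_right (mul_le_mul_of_nonneg_right ?_ hYM.le) hlp.le
    linarith

end Pool.Agent.Q26.OD
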