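import Pool.Agent.Q161.OD.Stm
import Pool.Agent.Erdos456.Mertens

set_option autoImplicit false

/-! Project OD (helper161), job CTA: the pairs with a fixed `m`. -/

namespace Pool.Agent.Q26.OD

open NumberField IsDedekindDomain Finset Pool.Agent.Q51.EL Pool.Agent.Q161.OD

open Classical in
/-- Mertens' second theorem bounds the sum over the primes which are norms -/
lemma GN_le : ∃ C : ℝ, ∀ (L : Type) [Field L] [NumberField L] (Y : ℝ), 3 ≤ Y →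
    GN L Y ≤ Real.log (Real.log Y) + C := by
  obtain ⟨C, hC⟩ := Pool.Agent.Erdos456.Mert.mertens_inv
  refine ⟨C, fun L _ _ Y hY => ?_⟩
  have hN : 3 ≤ ⌊Y⌋₊ := Nat.le_floor (by push_cast; exact hY)
  have h1 := (abs_le.1 (hC ⌊Y⌋₊ hN)).2
  have hY0 : 0 < Y := by linarith
  have h2 : GN L Y ≤ ∑ p ∈ (Finset.Icc 1 ⌊Y⌋₊).filter Nat.Prime, (1 : ℝ) / p := by
    unfold GN pr
    exact Finset.sum_le_sum_of_subset_of_nonneg (Finset.filter_subset _ _) fun _ _ _ => by positivity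
  have hN3 : (3 : ℝ) ≤ (⌊Y⌋₊ : ℝ) := by exact_mod_cast hN
  have hfl : (⌊Y⌋₊ : ℝ) ≤ Y := Nat.floor_le hY0.le
  have hl0 : 1 ≤ Real.log (⌊Y⌋₊ : ℝ) := by
    rw [Real.le_log_iff_exp_le (by linarith)]
    have := Real.exp_one_lt_d9
    linarith
  have h3 : Real.log (Real.log (⌊Y⌋₊ : ℝ)) ≤ Real.log (Real.log Y) :=
    Real.log_le_log (by linarith) (Real.log_le_log (by linarith) hfl)
  linarith

/-- the pairs with a fixed `m` satisfy the local conditions of project EL -/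
lemma ty_of_pairs {L : Type} [Field L] [NumberField L] {l : ℕ} (hl : l.Prime) {T : Set (𝓞 L × ℤ)}
    (h : P1 l T ∧ P2 l T) {m : ℤ} (hm : ¬ (l : ℤ) ∣ m) :
    Ty1 l {α : 𝓞 L | (α, m) ∈ T} ∧ Ty2 l {α : 𝓞 L | (α, m) ∈ T} := by
  refine ⟨fun β hβ => ?_, fun β hβ β' hβ' v0 hv0 h1 h2 => ⟨m * m, ?_, fun v hv hne => ?_⟩⟩
  · rcases h.1 (β, m) hβ with h1 | h1
    · exact h1.2
    · exact absurd h1.1 hm
  · intro h3
    rcases (Nat.prime_iff_prime_int.mp hl).dvd_or_dvd h3 with h4 | h4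
    · exact hm h4
    · exact hm h4
  · exact h.2.1 (β, m) hβ (β', m) hβ' v0 hv0 h1 h2 v hv hne

theorem cta (h : Pool.Agent.Q51.EL.S_CORE) : S_CTA := by
  intro L _ _ hn B C T hB hC hT m hm ε hε
  obtain ⟨n, hnd⟩ : ∃ n, n = Module.finrank ℚ L := ⟨_, rfl⟩
  have hn0 : n ≠ 0 := by omega
  have hm0 : m.natAbs ≠ 0 := by omega
  obtain ⟨c, Cc, hc, hcore⟩ := h L hn (B * m.natAbs) (mul_ne_zero hB hm0)
  obtain ⟨C', hGN⟩ := GN_le
  have hT' : ∀ l : ℕ, l.Prime → ¬ l ∣ B * m.natAbs →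
      Ty1 l {α : 𝓞 L | (α, m) ∈ T} ∧ Ty2 l {α : 𝓞 L | (α, m) ∈ T} := by
    intro l hl hlB
    refine ty_of_pairs hl (hT l hl fun h1 => hlB (h1.mul_right _)) fun h1 => hlB ?_
    exact (Int.natCast_dvd.mp h1).mul_left _
  obtain ⟨K, hK⟩ : ∃ K : ℝ, K = (|Cc| + 1) * (2 * C) ^ n * Real.exp C' := ⟨_, rfl⟩
  have hK0 : 0 < K := by rw [hK]; positivity
  have hmr : (1 : ℝ) ≤ (m : ℝ) := by exact_mod_cast hm
  have hnr : (0 : ℝ) < 1 / (n : ℝ) := by positivity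
  rw [← hnd] at hn hcore ⊢
  -- limits
  have hlim1 : Filter.Tendsto (fun X : ℝ => C * (X / m) ^ ((1 : ℝ) / n)) Filter.atTop Filter.atTop :=
    Filter.Tendsto.const_mul_atTop hC ((tendsto_rpow_atTop hnr).comp
      (Filter.tendsto_id.atTop_div_const (by linarith)))
  have hlim2 : Filter.Tendsto (fun X : ℝ => Real.log (C * (X / m) ^ ((1 : ℝ) / n) + 3) ^ (-c))
      Filter.atTop (nhds 0) :=
    (tendsto_rpow_neg_atTop hc).comp (Real.tendsto_log_atTop.comp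
      (Filter.tendsto_atTop_add_const_right _ _ hlim1))
  obtain ⟨X1, hX1⟩ := Filter.eventually_atTop.mp (hlim1.eventually_ge_atTop 3)
  obtain ⟨X2, hX2⟩ := Filter.eventually_atTop.mp
    (hlim2.eventually (gt_mem_nhds (show (0 : ℝ) < ε / K by positivity)))
  refine ⟨max (max X1 X2) 1, fun X hX => ?_⟩
  have hXa : X1 ≤ X := (le_max_left _ _).trans ((le_max_left _ _).trans hX)
  have hXb : X2 ≤ X := (le_max_right _ _).trans ((le_max_left _ _).trans hX)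
  have hXc : 1 ≤ X := (le_max_right _ _).trans hX
  have h3 := hX1 X hXa
  have h4 := hX2 X hXb
  obtain ⟨Z, hZ⟩ : ∃ Z : ℝ, Z = C * (X / m) ^ ((1 : ℝ) / n) := ⟨_, rfl⟩
  rw [← hZ] at h3 h4
  rw [← hZ]
  have hXm0 : 0 ≤ X / m := by positivity
  have hY3 : 3 ≤ Z + 3 := by linarith
  obtain ⟨hfin, hcard⟩ := hcore {α : 𝓞 L | (α, m) ∈ T} hT' (Z + 3) hY3
  have hsub : {α : 𝓞 L | (α, m) ∈ T ∧ ∀ σ : L →+* ℂ, ‖σ (α : L)‖ ≤ Z} ⊆
      {β ∈ {α : 𝓞 L | (α, m) ∈ T} | ∀ σ : L →+* ℂ, ‖σ (β : L)‖ ≤ Z + 3} := by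
    intro α hα
    exact ⟨hα.1, fun σ => (hα.2 σ).trans (by linarith)⟩
  refine ⟨hfin.subset hsub, ?_⟩
  have h5 : (({α : 𝓞 L | (α, m) ∈ T ∧ ∀ σ : L →+* ℂ, ‖σ (α : L)‖ ≤ Z}.ncard : ℕ) : ℝ) ≤
      (({β ∈ {α : 𝓞 L | (α, m) ∈ T} | ∀ σ : L →+* ℂ, ‖σ (β : L)‖ ≤ Z + 3}.ncard : ℕ) : ℝ) := by
    exact_mod_cast Set.ncard_le_ncard hsub hfin
  refine h5.trans (hcard.trans ?_)
  have hlog : 0 < Real.log (Z + 3) := Real.log_pos (by linarith)
  have h6 : Real.exp (GN L (Z + 3)) ≤ Real.log (Z + 3) * Real.exp C' := by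
    have h7 := Real.exp_le_exp.mpr (hGN L (Z + 3) hY3)
    rwa [Real.exp_add, Real.exp_log hlog] at h7
  have h7 : (Z + 3) ^ n ≤ (2 * C) ^ n * X := by
    have h8 : (Z + 3) ^ n ≤ (2 * Z) ^ n := pow_le_pow_left₀ (by linarith) (by linarith) n
    refine h8.trans ?_
    rw [hZ, ← mul_assoc, mul_pow (2 * C)]
    refine mul_le_mul_of_nonneg_left ?_ (by positivity)
    rw [← Real.rpow_natCast, ← Real.rpow_mul hXm0, one_div, inv_mul_cancel₀ (by positivity), Real.rpow_one]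
    exact div_le_self (by linarith) hmr
  have h8 : Real.log (Z + 3) * Real.log (Z + 3) ^ (-(1 + c)) = Real.log (Z + 3) ^ (-c) := by
    have h9 : Real.log (Z + 3) ^ (1 + -(1 + c)) = Real.log (Z + 3) ^ (1 : ℝ) *
        Real.log (Z + 3) ^ (-(1 + c)) := Real.rpow_add hlog _ _
    rw [Real.rpow_one] at h9
    rw [← h9]
    congr 1
    ring
  have hp : 0 < Real.log (Z + 3) ^ (-(1 + c)) := Real.rpow_pos_of_pos hlog _
  have hCc : Cc ≤ |Cc| + 1 := by linarith [le_abs_self Cc]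
  have hZn : 0 < (Z + 3) ^ n := by positivity
  calc Cc * (Z + 3) ^ n * Real.exp (GN L (Z + 3)) * Real.log (Z + 3) ^ (-(1 + c))
      ≤ (|Cc| + 1) * (Z + 3) ^ n * Real.exp (GN L (Z + 3)) * Real.log (Z + 3) ^ (-(1 + c)) := by
        gcongr
    _ ≤ (|Cc| + 1) * ((2 * C) ^ n * X) * (Real.log (Z + 3) * Real.exp C') *
          Real.log (Z + 3) ^ (-(1 + c)) := by
        gcongr
    _ = K * X * (Real.log (Z + 3) * Real.log (Z + 3) ^ (-(1 + c))) := by rw [hK]; ring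
    _ = K * X * Real.log (Z + 3) ^ (-c) := by rw [h8]
    _ ≤ K * X * (ε / K) := by gcongr
    _ = ε * X := by field_simp

end Pool.Agent.Q26.OD
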